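import Mathlib
import Pool.Agent.H67.HSDefs
import Pool.Agent.H67.HSTheory

/-!
# When is `HS(p,X)` aposyndetic?
-/

namespace Pool.Agent.Results.MP_53bf97_gt.Characterization

open Pool.Agent.H67

/-- For every continuum `X` and every point `p` of `X`, the space `HS(p,X) = C(X)/C(p,X)` is
aposyndetic if and only if `X` is aposyndetic at every point `x ≠ p` with respect to `p`. -/
theorem result {X : Type*} [MetricSpace X] [CompactSpace X] [ConnectedSpace X] [Nontrivial X]
    (p : X) : Aposyndetic (HS p) ↔ ∀ x : X, x ≠ p → AposyndeticAt x p :=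
  HS.aposyndetic_iff p

end Pool.Agent.Results.MP_53bf97_gt.Characterization
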