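import Mathlib
import Pool.Agent.H67.HSDefs
import Pool.Agent.H67.HSTheory
import Pool.Agent.H67.Fan

/-!
# `HS(p,X)` need not be aposyndetic (question Q1)
-/

namespace Pool.Agent.Results.MP_53bf97_gt.NotAposyndetic

open Pool.Agent.H67

/-- There are a continuum `X` and a point `p` of `X` such that `HS(p,X) = C(X)/C(p,X)` is not
aposyndetic. (The proof takes the harmonic fan and its vertex.) -/
theorem result : ∃ (X : Type) (_ : MetricSpace X) (_ : CompactSpace X) (_ : ConnectedSpace X)
    (_ : Nontrivial X) (p : X), ¬ Aposyndetic (HS p) := by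
  refine ⟨fan, inferInstance, inferInstance, inferInstance, inferInstance, vertex, ?_⟩
  rw [HS.aposyndetic_iff]
  intro h
  exact not_aposyndeticAt_fan (h endPt endPt_ne_vertex)

end Pool.Agent.Results.MP_53bf97_gt.NotAposyndetic
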