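import Mathlib
import Pool.Agent.H67.HSDefs
import Pool.Agent.H67.HSTheory

/-!
# `HS(p,X)` is semi-aposyndetic (question Q2)
-/

namespace Pool.Agent.Results.MP_53bf97_gt.SemiAposyndetic

open Pool.Agent.H67

/-- For every continuum `X` and every point `p` of `X` the space `HS(p,X) = C(X)/C(p,X)` is
semi-aposyndetic. -/
theorem result {X : Type*} [MetricSpace X] [CompactSpace X] [ConnectedSpace X] [Nontrivial X]
    (p : X) : SemiAposyndetic (HS p) :=
  HS.semiAposyndetic p

/-- Check: `HS(p,X)` is a compact connected Hausdorff space. -/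
theorem check {X : Type*} [MetricSpace X] [CompactSpace X] [ConnectedSpace X] (p : X) :
    CompactSpace (HS p) ∧ ConnectedSpace (HS p) ∧ T2Space (HS p) :=
  ⟨inferInstance, inferInstance, inferInstance⟩

end Pool.Agent.Results.MP_53bf97_gt.SemiAposyndetic
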